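import Pool.Agent.Y790.TG.Fin
import Pool.Agent.Y790.TG.Decomp

/-!
# The least odd host size for balanced trees with few leaves is `2 n - 1`

Lower bound, for all `n`: if the path on `2 n` vertices decomposes `K_{2n-1,k}` and `k` is odd, every one of
the `2 n - 1` vertices of degree `k` is an end of one of the `k` paths, and every path has only one end
there; so `k ≥ 2 n - 1` (the counting is helper425's, `Pool.Agent.Y425.Pack.Lower`, here for decompositions).
Upper bound: all large trees with at most `l` leaves have an `α`-labelling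
(`Pool.Agent.Y790.TG.allTreeG`), so they decompose `K_{2n-1,2n-1}`.
-/

set_option autoImplicit false
set_option linter.unusedSectionVars false

namespace Pool.Agent.Results.MP_7c15de_co.OddHosts

open Finset Function

/-- `G` decomposes `H`: there is a family of injective maps `φ i` of the vertices of `G` to the vertices of
`H` such that edges go to edges and every edge of `H` is the image of exactly one edge of `G` under exactly
one of the maps. -/
def Decomposes {V W : Type} (G : SimpleGraph V) (H : SimpleGraph W) : Prop :=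
  ∃ (ι : Type) (φ : ι → V → W), (∀ i, Function.Injective (φ i)) ∧
    (∀ i u v, G.Adj u v → H.Adj (φ i u) (φ i v)) ∧
    ∀ e ∈ H.edgeSet, ∃! p : ι × G.edgeSet, Sym2.map (φ p.1) p.2.val = e

/-- `T` is a balanced tree `T_{n,n}`: a tree with a proper 2-colouring with `n` vertices of each colour. -/
def IsBalancedTree {V : Type} (T : SimpleGraph V) (n : ℕ) : Prop :=
  T.IsTree ∧ ∃ c : T.Coloring Bool, {v : V | c v = true}.ncard = n ∧ {v : V | c v = false}.ncard = n

/-- The set `S(n)` of the problem: the positive `k` such that every `T_{n,n}` decomposes `K_{2n-1,k}`. -/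
def S (n : ℕ) : Set ℕ :=
  {k | 1 ≤ k ∧ ∀ (V : Type) [Fintype V] (T : SimpleGraph V), IsBalancedTree T n →
    Decomposes T (completeBipartiteGraph (Fin (2 * n - 1)) (Fin k))}

/-- The same for the trees `T_{n,n}` with at most `l` leaves. -/
def SLeaves (l n : ℕ) : Set ℕ :=
  {k | 1 ≤ k ∧ ∀ (V : Type) [Fintype V] (T : SimpleGraph V), IsBalancedTree T n →
    {x : V | (T.neighborSet x).ncard = 1}.ncard ≤ l →
    Decomposes T (completeBipartiteGraph (Fin (2 * n - 1)) (Fin k))}

lemma adj_bip {X Y : Type} {u v : X ⊕ Y} (h : (completeBipartiteGraph X Y).Adj u v) :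
    ∃ x y, s(u, v) = s(Sum.inl x, Sum.inr y) := by
  rcases u with u | u <;> rcases v with v | v
  · simp at h
  · exact ⟨u, v, rfl⟩
  · exact ⟨v, u, Sym2.eq_swap⟩
  · simp at h

/-- If the path on `2 n` vertices decomposes `K_{2n-1,k}` and `k` is odd, then `k ≥ 2 n - 1`. -/
theorem parity {n k : ℕ} (hn : 1 ≤ n) (hk : Odd k)
    (hP : Decomposes (SimpleGraph.pathGraph (2 * n)) (completeBipartiteGraph (Fin (2 * n - 1)) (Fin k))) :
    2 * n - 1 ≤ k := by
  classical
  obtain ⟨ι, φ, hinj, hadj, hcov⟩ := hP
  obtain ⟨m, hm⟩ : ∃ m, 2 * n - 1 = m := ⟨_, rfl⟩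
  have h2n : 2 * n = m + 1 := by omega
  have hmpos : 0 < m := by omega
  -- the vertices of the paths
  let v : Fin m → Fin (2 * n) := fun j => ⟨j.val, by omega⟩
  let v' : Fin m → Fin (2 * n) := fun j => ⟨j.val + 1, by omega⟩
  have hvv' : ∀ j, (SimpleGraph.pathGraph (2 * n)).Adj (v j) (v' j) := fun j => by
    rw [SimpleGraph.pathGraph_adj]; left; rfl
  have hxy : ∀ i j, ∃ x y, s(φ i (v j), φ i (v' j)) = s(Sum.inl x, Sum.inr y) := fun i j =>
    adj_bip (hadj i _ _ (hvv' j))
  choose x y hxy using hxy
  have hinj2 : Injective (fun p : ι × Fin m => (x p.1 p.2, y p.1 p.2)) := by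
    rintro ⟨i, j⟩ ⟨i', j'⟩ h
    simp only [Prod.mk.injEq] at h
    have h1 : s(φ i (v j), φ i (v' j)) = s(φ i' (v j'), φ i' (v' j')) := by
      rw [hxy, hxy, h.1, h.2]
    have he : s(φ i (v j), φ i (v' j)) ∈ (completeBipartiteGraph (Fin (2 * n - 1)) (Fin k)).edgeSet :=
      hadj i _ _ (hvv' j)
    have hu := (hcov _ he).unique (y₁ := (i, ⟨s(v j, v' j), hvv' j⟩))
      (y₂ := (i', ⟨s(v j', v' j'), hvv' j'⟩)) (by simp only [Sym2.map_mk])
      (by simp only [Sym2.map_mk]; exact h1.symm)
    have hu1 := congrArg Prod.fst hu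
    have hu2 := congrArg (fun q => (q.2 : Sym2 (Fin (2 * n)))) hu
    simp only at hu1
    have hu3 : s(v j, v' j) = s(v j', v' j') := hu2
    simp only [Sym2.eq, Sym2.rel_iff', Prod.mk.injEq, Prod.swap_prod_mk, v, v', Fin.mk.injEq] at hu3
    have : j = j' := Fin.ext (by omega)
    rw [this, hu1]
  have hsurj2 : Surjective (fun p : ι × Fin m => (x p.1 p.2, y p.1 p.2)) := by
    rintro ⟨a, b⟩
    have he : s(Sum.inl a, Sum.inr b) ∈ (completeBipartiteGraph (Fin (2 * n - 1)) (Fin k)).edgeSet := by
      simp
    obtain ⟨⟨i, e⟩, hp, -⟩ := hcov _ he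
    obtain ⟨e, hee⟩ := e
    revert hee hp
    refine Sym2.ind (fun u w => ?_) e
    intro hee hp
    have huw := hee
    rw [SimpleGraph.mem_edgeSet, SimpleGraph.pathGraph_adj] at huw
    simp only [Sym2.map_mk] at hp
    rcases huw with h | h
    · refine ⟨(i, ⟨u.val, by have := w.isLt; omega⟩), ?_⟩
      have h1 := hxy i ⟨u.val, by have := w.isLt; omega⟩
      have h2 : v' ⟨u.val, by have := w.isLt; omega⟩ = w := Fin.ext h
      have h3 : v ⟨u.val, by have := w.isLt; omega⟩ = u := rfl
      rw [h2, h3, hp] at h1
      simp only [Sym2.eq, Sym2.rel_iff', Prod.mk.injEq, Sum.inl.injEq, Sum.inr.injEq, Prod.swap_prod_mk,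
        reduceCtorEq, and_self, or_false] at h1
      simp only
      rw [← h1.1, ← h1.2]
    · refine ⟨(i, ⟨w.val, by have := u.isLt; omega⟩), ?_⟩
      have h1 := hxy i ⟨w.val, by have := u.isLt; omega⟩
      have h2 : v' ⟨w.val, by have := u.isLt; omega⟩ = u := Fin.ext h
      have h3 : v ⟨w.val, by have := u.isLt; omega⟩ = w := rfl
      rw [h2, h3, Sym2.eq_swap, hp] at h1
      simp only [Sym2.eq, Sym2.rel_iff', Prod.mk.injEq, Sum.inl.injEq, Sum.inr.injEq, Prod.swap_prod_mk,
        reduceCtorEq, and_self, or_false] at h1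
      simp only
      rw [← h1.1, ← h1.2]
  have hfin : Finite ι := by
    refine Finite.of_injective (fun i : ι => (x i ⟨0, hmpos⟩, y i ⟨0, hmpos⟩)) ?_
    intro i i' h
    have := hinj2 (a₁ := (i, ⟨0, hmpos⟩)) (a₂ := (i', ⟨0, hmpos⟩)) h
    exact congrArg Prod.fst this
  have : Fintype ι := Fintype.ofFinite ι
  have hcard : Fintype.card ι = k := by
    have h1 := Fintype.card_of_bijective ⟨hinj2, hsurj2⟩
    simp only [Fintype.card_prod, Fintype.card_fin] at h1
    rw [hm, mul_comm] at h1
    exact Nat.eq_of_mul_eq_mul_left hmpos h1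
  -- every column contains an end vertex
  have hend : ∀ c : Fin (2 * n - 1), ∃ i, φ i ⟨0, by omega⟩ = Sum.inl c ∨
      φ i ⟨2 * n - 1, by omega⟩ = Sum.inl c := by
    intro c
    by_contra hcon
    push Not at hcon
    have h1 : (univ.filter fun p : ι × Fin m => x p.1 p.2 = c).card = k := by
      have h2 : (univ.filter fun p : ι × Fin m => x p.1 p.2 = c).card =
          (univ.filter fun q : Fin (2 * n - 1) × Fin k => q.1 = c).card := by
        refine Finset.card_bij (fun p _ => (x p.1 p.2, y p.1 p.2)) ?_ ?_ ?_
        · intro p hp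
          rw [Finset.mem_filter] at hp ⊢
          exact ⟨Finset.mem_univ _, hp.2⟩
        · intro p _ q _ h
          exact hinj2 h
        · intro q hq
          obtain ⟨p, hp⟩ := hsurj2 q
          refine ⟨p, ?_, hp⟩
          rw [Finset.mem_filter] at hq ⊢
          refine ⟨Finset.mem_univ _, ?_⟩
          rw [← hq.2, ← hp]
      rw [h2]
      have h3 : (univ.filter fun q : Fin (2 * n - 1) × Fin k => q.1 = c) =
          {c} ×ˢ (univ : Finset (Fin k)) := by
        ext ⟨q1, q2⟩
        simp only [Finset.mem_filter, Finset.mem_univ, true_and, Finset.mem_product,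
          Finset.mem_singleton, and_true]
      rw [h3, Finset.card_product]
      simp
    have h4 : (univ.filter fun p : ι × Fin m => x p.1 p.2 = c).card =
        ∑ i, (univ.filter fun j : Fin m => x i j = c).card := by
      rw [Finset.card_filter, Fintype.sum_prod_type]
      refine Finset.sum_congr rfl fun i _ => ?_
      rw [Finset.card_filter]
    have hmemx : ∀ i j, x i j = c ↔ (φ i (v j) = Sum.inl c ∨ φ i (v' j) = Sum.inl c) := by
      intro i j
      have h5 := hxy i j
      simp only [Sym2.eq, Sym2.rel_iff', Prod.mk.injEq, Prod.swap_prod_mk] at h5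
      rcases h5 with ⟨h5, h6⟩ | ⟨h5, h6⟩
      · rw [h5, h6]; simp
      · rw [h5, h6]; simp
    have h7 : ∀ i, Even (univ.filter fun j : Fin m => x i j = c).card := by
      intro i
      by_cases hex : ∃ w, φ i w = Sum.inl c
      · obtain ⟨w, hw⟩ := hex
        have hw0 : w.val ≠ 0 := by
          intro h0
          apply (hcon i).1
          rw [← hw]
          congr 1
          exact Fin.ext h0.symm
        have hw1 : w.val ≠ 2 * n - 1 := by
          intro h0
          apply (hcon i).2
          rw [← hw]
          congr 1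
          exact Fin.ext h0.symm
        have hwlt := w.isLt
        have h8 : (univ.filter fun j : Fin m => x i j = c) =
            {⟨w.val - 1, by omega⟩, ⟨w.val, by omega⟩} := by
          ext j
          rw [Finset.mem_filter, hmemx, ← hw]
          simp only [Finset.mem_univ, true_and, Finset.mem_insert, Finset.mem_singleton]
          rw [(hinj i).eq_iff, (hinj i).eq_iff]
          simp only [v, v', Fin.ext_iff]
          omega
        rw [h8, Finset.card_pair]
        · exact ⟨1, rfl⟩
        · intro h9
          have := congrArg Fin.val h9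
          simp at this
          omega
      · push Not at hex
        have h8 : (univ.filter fun j : Fin m => x i j = c) = ∅ := by
          rw [Finset.filter_eq_empty_iff]
          intro j _
          rw [hmemx]
          push Not
          exact ⟨hex _, hex _⟩
        rw [h8]
        simp
    have h8 : Even (∑ i, (univ.filter fun j : Fin m => x i j = c).card) :=
      Finset.even_sum _ fun i _ => h7 i
    rw [← h4, h1] at h8
    exact (Nat.not_even_iff_odd.2 hk) h8
  -- the two ends of a path are on different sides
  have hside : ∀ i (j : ℕ) (hj : j < 2 * n), (φ i ⟨j, hj⟩).isLeft =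
      xor (φ i ⟨0, by omega⟩).isLeft (decide (j % 2 = 1)) := by
    intro i j
    induction j with
    | zero => intro hj; simp
    | succ j ih =>
      intro hj
      have h1 := ih (by omega)
      have h2 := hadj i ⟨j, by omega⟩ ⟨j + 1, hj⟩ (by
        rw [SimpleGraph.pathGraph_adj]; left; rfl)
      have h3 : (φ i ⟨j + 1, hj⟩).isLeft = !(φ i ⟨j, by omega⟩).isLeft := by
        obtain ⟨a, b, hab⟩ := adj_bip h2
        simp only [Sym2.eq, Sym2.rel_iff', Prod.mk.injEq, Prod.swap_prod_mk] at hab
        rcases hab with ⟨h5, h6⟩ | ⟨h5, h6⟩ <;> rw [h5, h6] <;> rfl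
      rw [h3, h1]
      rcases Nat.mod_two_eq_zero_or_one j with h4 | h4
      · have h5 : (j + 1) % 2 = 1 := by omega
        simp [h4, h5]
      · have h5 : (j + 1) % 2 = 0 := by omega
        simp [h4, h5]
  -- the map sending a path to its end in the first class
  have hsurj : ∃ g : ι → Fin (2 * n - 1), Surjective g := by
    have hne : Nonempty (Fin (2 * n - 1)) := ⟨⟨0, by omega⟩⟩
    let g : ι → Fin (2 * n - 1) := fun i =>
      ((φ i ⟨0, by omega⟩).getLeft?.or (φ i ⟨2 * n - 1, by omega⟩).getLeft?).getD
        ⟨0, by omega⟩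
    refine ⟨g, fun c => ?_⟩
    obtain ⟨i, hi⟩ := hend c
    refine ⟨i, ?_⟩
    rcases hi with hi | hi
    · simp [g, hi]
    · have h1 := hside i (2 * n - 1) (by omega)
      rw [hi] at h1
      have h2 : (2 * n - 1) % 2 = 1 := by omega
      have h3 : (φ i ⟨0, by omega⟩).isLeft = false := by
        simp only [Sum.isLeft_inl, h2, decide_true, Bool.xor_true] at h1
        simpa using h1.symm
      rcases hz : φ i ⟨0, by omega⟩ with z | z
      · rw [hz] at h3
        simp at h3
      · simp [g, hi, hz]
  obtain ⟨g, hg⟩ := hsurj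
  have := Fintype.card_le_of_surjective g hg
  rw [Fintype.card_fin, hcard] at this
  omega

lemma pathGraph_isTree {m : ℕ} (hm : 1 ≤ m) : (SimpleGraph.pathGraph m).IsTree := by
  obtain ⟨m, rfl⟩ : ∃ m', m = m' + 1 := ⟨m - 1, by omega⟩
  rw [SimpleGraph.isTree_iff_connected_and_card]
  refine ⟨SimpleGraph.pathGraph_connected m, ?_⟩
  have h1 : Nat.card (SimpleGraph.pathGraph (m + 1)).edgeSet = m := by
    have hadj : ∀ i : Fin m, (SimpleGraph.pathGraph (m + 1)).Adj i.castSucc i.succ := by
      intro i
      rw [SimpleGraph.pathGraph_adj]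
      left
      simp
    let f : Fin m → (SimpleGraph.pathGraph (m + 1)).edgeSet := fun i =>
      ⟨s(i.castSucc, i.succ), hadj i⟩
    have hf : Bijective f := by
      constructor
      · intro i j hij
        have h2 := congrArg Subtype.val hij
        simp only [f, Sym2.eq, Sym2.rel_iff', Prod.mk.injEq, Prod.swap_prod_mk] at h2
        rcases h2 with ⟨h3, -⟩ | ⟨h3, h4⟩
        · exact Fin.castSucc_injective _ h3
        · have h5 := congrArg Fin.val h3
          have h6 := congrArg Fin.val h4
          simp at h5 h6
          omega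
      · rintro ⟨x, hx⟩
        revert hx
        refine Sym2.ind (fun u v huv => ?_) x
        have huv' := huv
        rw [SimpleGraph.mem_edgeSet, SimpleGraph.pathGraph_adj] at huv'
        rcases huv' with h | h
        · refine ⟨⟨u.val, by have := v.isLt; omega⟩, ?_⟩
          apply Subtype.ext
          simp only [f]
          congr 2
          exact Fin.ext (by simpa using h)
        · refine ⟨⟨v.val, by have := u.isLt; omega⟩, ?_⟩
          apply Subtype.ext
          simp only [f]
          rw [Sym2.eq_swap]
          congr 2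
          exact Fin.ext (by simpa using h)
    rw [← Nat.card_eq_of_bijective f hf, Nat.card_eq_fintype_card, Fintype.card_fin]
  rw [h1, Nat.card_eq_fintype_card, Fintype.card_fin]

lemma path_balanced {n : ℕ} (hn : 1 ≤ n) : IsBalancedTree (SimpleGraph.pathGraph (2 * n)) n := by
  refine ⟨pathGraph_isTree (by omega), SimpleGraph.Coloring.mk (fun v => decide (v.val % 2 = 0)) ?_, ?_, ?_⟩
  · intro u v huv
    rw [SimpleGraph.pathGraph_adj] at huv
    intro h
    have h3 := decide_eq_decide.1 h
    rcases huv with h | h <;> omega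
  · have h1 : {v : Fin (2 * n) | (SimpleGraph.Coloring.mk (G := SimpleGraph.pathGraph (2 * n))
        (fun v => decide (v.val % 2 = 0)) (by
          intro u v huv
          rw [SimpleGraph.pathGraph_adj] at huv
          intro h
          have h3 := decide_eq_decide.1 h
          rcases huv with h | h <;> omega)) v = true} =
        Set.range (fun i : Fin n => (⟨2 * i.val, by omega⟩ : Fin (2 * n))) := by
      ext v
      simp only [Set.mem_setOf_eq, Set.mem_range]
      show decide (v.val % 2 = 0) = true ↔ _
      rw [decide_eq_true_iff]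
      constructor
      · intro h
        exact ⟨⟨v.val / 2, by omega⟩, Fin.ext (by simp; omega)⟩
      · rintro ⟨i, rfl⟩
        simp
    rw [h1, ← Set.image_univ, Set.ncard_image_of_injective, Set.ncard_univ, Nat.card_eq_fintype_card,
      Fintype.card_fin]
    intro i j hij
    simp only [Fin.mk.injEq] at hij
    exact Fin.ext (by omega)
  · have h1 : {v : Fin (2 * n) | (SimpleGraph.Coloring.mk (G := SimpleGraph.pathGraph (2 * n))
        (fun v => decide (v.val % 2 = 0)) (by
          intro u v huv
          rw [SimpleGraph.pathGraph_adj] at huv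
          intro h
          have h3 := decide_eq_decide.1 h
          rcases huv with h | h <;> omega)) v = false} =
        Set.range (fun i : Fin n => (⟨2 * i.val + 1, by omega⟩ : Fin (2 * n))) := by
      ext v
      simp only [Set.mem_setOf_eq, Set.mem_range]
      show decide (v.val % 2 = 0) = false ↔ _
      rw [decide_eq_false_iff_not]
      constructor
      · intro h
        exact ⟨⟨v.val / 2, by omega⟩, Fin.ext (by simp; omega)⟩
      · rintro ⟨i, rfl⟩
        simp
    rw [h1, ← Set.image_univ, Set.ncard_image_of_injective, Set.ncard_univ, Nat.card_eq_fintype_card,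
      Fintype.card_fin]
    intro i j hij
    simp only [Fin.mk.injEq] at hij
    exact Fin.ext (by omega)

lemma path_leaves {n : ℕ} (hn : 1 ≤ n) :
    {x : Fin (2 * n) | ((SimpleGraph.pathGraph (2 * n)).neighborSet x).ncard = 1}.ncard ≤ 2 := by
  have hsub : {x : Fin (2 * n) | ((SimpleGraph.pathGraph (2 * n)).neighborSet x).ncard = 1} ⊆
      {(⟨0, by omega⟩ : Fin (2 * n)), (⟨2 * n - 1, by omega⟩ : Fin (2 * n))} := by
    intro x hx
    simp only [Set.mem_setOf_eq] at hx
    by_contra hcon
    simp only [Set.mem_insert_iff, Set.mem_singleton_iff, Fin.ext_iff, not_or] at hcon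
    have hlt := x.isLt
    have h1 : (SimpleGraph.pathGraph (2 * n)).neighborSet x =
        {(⟨x.val - 1, by omega⟩ : Fin (2 * n)), (⟨x.val + 1, by omega⟩ : Fin (2 * n))} := by
      ext w
      simp only [SimpleGraph.mem_neighborSet, SimpleGraph.pathGraph_adj, Set.mem_insert_iff,
        Set.mem_singleton_iff, Fin.ext_iff]
      omega
    rw [h1, Set.ncard_pair (by
      intro h
      have := congrArg Fin.val h
      simp only at this
      omega)] at hx
    omega
  refine (Set.ncard_le_ncard hsub (Set.toFinite _)).trans ?_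
  exact Set.ncard_insert_le _ _ |>.trans (by simp)

/-- **Odd host sizes.** (1) For every `n` every odd element of `S(n)` is at least `2 n - 1`, so `k(n)` is even
or at least `2 n - 1`. (2) For every `l ≥ 2` and all large `n` the least odd `k` such that every `T_{n,n}`
with at most `l` leaves decomposes `K_{2n-1,k}` is exactly `2 n - 1`. -/
theorem result :
    (∀ n k : ℕ, 1 ≤ n → Odd k → k ∈ S n → 2 * n - 1 ≤ k) ∧
    (∀ l : ℕ, 2 ≤ l → ∃ N : ℕ, ∀ n : ℕ, N ≤ n → IsLeast {k : ℕ | Odd k ∧ k ∈ SLeaves l n} (2 * n - 1)) := by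
  classical
  refine ⟨fun n k hn hk hS => parity hn hk (hS.2 (Fin (2 * n)) _ (path_balanced hn)), fun l hl => ?_⟩
  obtain ⟨N, hN⟩ := Pool.Agent.Y790.TG.allTreeG l
  refine ⟨max 2 N, fun n hn => ⟨⟨⟨n - 1, ?_⟩, ?_, ?_⟩, ?_⟩⟩
  · have : 2 ≤ n := (le_max_left _ _).trans hn
    omega
  · have : 2 ≤ n := (le_max_left _ _).trans hn
    omega
  · rintro V _ T ⟨hT, c, hc1, hc2⟩ hk
    have hcard : Fintype.card V = 2 * n := by
      have h1 : {v : V | c v = true} ∪ {v : V | c v = false} = Set.univ := by
        ext v
        simp only [Set.mem_union, Set.mem_setOf_eq, Set.mem_univ, iff_true]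
        cases c v
        · exact Or.inr rfl
        · exact Or.inl rfl
      have h2 : Disjoint {v : V | c v = true} {v : V | c v = false} := by
        rw [Set.disjoint_left]
        intro v hv hv'
        simp only [Set.mem_setOf_eq] at hv hv'
        rw [hv] at hv'
        exact absurd hv' (by decide)
      have h3 := Set.ncard_union_eq h2 (Set.toFinite _) (Set.toFinite _)
      rw [h1, hc1, hc2, Set.ncard_univ, Nat.card_eq_fintype_card] at h3
      omega
    have hedge : T.edgeSet.ncard = 2 * n - 1 := by
      have h1 := hT.card_edgeFinset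
      rw [hcard] at h1
      rw [Set.ncard_eq_toFinset_card']
      have h2 : T.edgeSet.toFinset.card = T.edgeFinset.card := rfl
      omega
    have h2n : 2 ≤ n := (le_max_left _ _).trans hn
    have hNn : N ≤ n := (le_max_right _ _).trans hn
    have hA := hN V T hT hk (by omega)
    have h3 := (Pool.Agent.Y790.TG.decomp V T hT (by omega) hA 1 1 le_rfl le_rfl).1
    rw [mul_one, hedge] at h3
    exact h3
  · rintro k ⟨hk, hS⟩
    have h2n : 2 ≤ n := (le_max_left _ _).trans hn
    exact parity (by omega) hk (hS.2 (Fin (2 * n)) _ (path_balanced (by omega))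
      ((path_leaves (by omega)).trans hl))

end Pool.Agent.Results.MP_7c15de_co.OddHosts
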